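import Pool.Agent.Lib.MP_72e2e6_nt.P3.EN2.Spec

/-!
# MP_72e2e6_nt, theorem T3p, block EN2: CloT, the difference of two near points is near `O`
-/

set_option autoImplicit false

namespace Pool.Agent.MP72P

open Polynomial WeierstrassCurve
open Pool.Agent.MP72W (pmap)
open Pool.Agent.MP72V

open scoped Classical

private theorem cloT_add {L : Type} [Field L] {w : AbsoluteValue L ℝ} (hw : IsNonarchimedean w)
    {M : ℝ} {a b : L} (ha : w a ≤ M) (hb : w b ≤ M) : w (a + b) ≤ M :=
  (hw a b).trans (max_le ha hb)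

private theorem cloT_big {L : Type} [Field L] {w : AbsoluteValue L ℝ} (hw : IsNonarchimedean w)
    {M : ℝ} {u v : L} (hu : M < w u) (hv : w v ≤ M) : M < w (u + v) := by
  by_contra hcon
  push Not at hcon
  have h1 : u = (u + v) + -v := by ring
  rw [h1] at hu
  exact absurd (cloT_add hw hcon (by rw [w.map_neg]; exact hv)) (not_le.2 hu)

private theorem cloT_bige {L : Type} [Field L] {w : AbsoluteValue L ℝ} (hw : IsNonarchimedean w)
    {c : ℝ} {u v : L} (hu : c ≤ w u) (hv : w v < c) : c ≤ w (u + v) := by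
  by_contra hcon
  push Not at hcon
  have h1 : u = (u + v) + -v := by ring
  rw [h1] at hu
  have h2 := (hw (u + v) (-v)).trans_lt (max_lt hcon (by rw [w.map_neg]; exact hv))
  exact absurd h2 (not_lt.2 hu)

/-- a point with small `x` has a tangent which is not small -/
private theorem cloT_a {L : Type} [Field L] (h20 : (2 : L) = 0) {w : AbsoluteValue L ℝ}
    (hw : IsNonarchimedean w) (a b : L) (hb : b ≠ 0) (N : ℝ) (hN : 1 ≤ N) (ha : w a ≤ N) :
    ∃ c : ℝ, 0 < c ∧ c ≤ 1 ∧ c ≤ w b ∧ ∀ x y : L, w x ≤ N → w y ≤ N →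
      y ^ 2 + x * y = x ^ 3 + a * x ^ 2 + b → c ≤ w x ∨ c ≤ w (y + x ^ 2) := by
  have hb0 : 0 < w b := w.pos hb
  have hN3 : 1 ≤ N ^ 3 := one_le_pow₀ hN
  have hN2 : 1 ≤ N ^ 2 := one_le_pow₀ hN
  have hm0 : 0 < min 1 (w b) := lt_min one_pos hb0
  have hc0 : 0 < min 1 (w b) / (2 * N ^ 3) := by positivity
  have hcm : min 1 (w b) / (2 * N ^ 3) * N ^ 3 = min 1 (w b) / 2 := by
    field_simp
  have hcle : min 1 (w b) / (2 * N ^ 3) ≤ min 1 (w b) / 2 := by
    rw [← hcm]
    nlinarith
  have hm1 : min 1 (w b) ≤ 1 := min_le_left _ _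
  have hmb : min 1 (w b) ≤ w b := min_le_right _ _
  refine ⟨min 1 (w b) / (2 * N ^ 3), hc0, by linarith, by linarith, ?_⟩
  set c := min 1 (w b) / (2 * N ^ 3) with hc
  intro x y hx hy hE
  by_contra hcon
  push Not at hcon
  obtain ⟨h1, h2⟩ := hcon
  have hx0 := w.nonneg x
  have hNN : N ≤ N ^ 2 := by nlinarith
  have hN23 : N ^ 2 ≤ N ^ 3 := by nlinarith
  have hx2 : w (x ^ 2) ≤ N ^ 2 := by
    rw [map_pow]
    exact pow_le_pow_left₀ hx0 hx 2
  have ht : w (y + x ^ 2) ≤ N ^ 3 := cloT_add hw (by linarith) (by linarith)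
  have hax : w (a * x) ≤ N ^ 3 := by
    rw [map_mul]
    have : w a * w x ≤ N * N := mul_le_mul ha hx hx0 (by linarith)
    nlinarith
  have hx3 : w (x ^ 3) ≤ N ^ 3 := by
    rw [map_pow]
    exact pow_le_pow_left₀ hx0 hx 3
  have hs : w ((y + x ^ 2) + (x ^ 3 + a * x)) ≤ N ^ 3 := cloT_add hw ht (cloT_add hw hx3 hax)
  have key : b = (y + x ^ 2) ^ 2 + x * ((y + x ^ 2) + (x ^ 3 + a * x)) := by
    linear_combination (-1 : L) * hE - (x ^ 2 * y + x ^ 4 + x ^ 3 + a * x ^ 2) * h20
  have hle : w b ≤ max (w (y + x ^ 2) ^ 2) (w x * N ^ 3) := by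
    conv_lhs => rw [key]
    refine (hw _ _).trans (max_le_max ?_ ?_)
    · rw [map_pow]
    · rw [map_mul]
      exact mul_le_mul_of_nonneg_left hs hx0
  have h3 : w (y + x ^ 2) ^ 2 < w b := by
    have h4 : w (y + x ^ 2) ^ 2 ≤ c ^ 2 := pow_le_pow_left₀ (w.nonneg _) h2.le 2
    have h5 : c ^ 2 ≤ c := by
      have : c ≤ 1 := by linarith
      nlinarith
    linarith
  have h4 : w x * N ^ 3 < w b := by
    have h5 : w x * N ^ 3 ≤ c * N ^ 3 := mul_le_mul_of_nonneg_right h1.le (by linarith)
    linarith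
  exact absurd hle (not_le.2 (max_lt h3 h4))

/-- from the slope to the abscissa -/
private theorem cloT_l {L : Type} [Field L] {w : AbsoluteValue L ℝ} (hw : IsNonarchimedean w)
    {N : ℝ} (hN : 1 ≤ N) {l v : L} (hl : 2 * N ≤ w l) (hv : w v ≤ N) :
    N < w (l ^ 2 + l + v) := by
  apply cloT_big hw _ hv
  have h1 : l ^ 2 + l = l * (l + 1) := by ring
  have h2 : w l ≤ w (l + 1) := by
    refine cloT_bige hw le_rfl ?_
    rw [map_one]
    linarith
  rw [h1, map_mul]
  nlinarith

theorem tCloT (h1 : S_PtT) (h2 : S_Na) : S_CloT := by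
  intro p hp hp2 L _ _ W hW w M
  have hw := h2 p L w
  have h20 : (2 : L) = 0 := by
    have h := CharP.cast_eq_zero L p
    rw [hp2] at h
    exact_mod_cast h
  have hneg : ∀ u v : L, u - v = u + v := fun u v => by linear_combination (-v) * h20
  obtain ⟨-, p2, -, p4, p5, p6, p7, p8⟩ := h1 L h20 W hW
  have hb : W.a₆ ≠ 0 := hW.a6.ne_zero
  set N := max (max M 1) (max (w W.a₂) (w W.a₆)) with hN
  have hMN : M ≤ N := (le_max_left _ _).trans (le_max_left _ _)
  have hN1 : 1 ≤ N := (le_max_right M 1).trans (le_max_left _ _)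
  have hNa : w W.a₂ ≤ N := (le_max_left _ _).trans (le_max_right _ _)
  have hN0 : 0 < N := by linarith
  obtain ⟨c, hc, hc1, hcb, hcf⟩ := cloT_a h20 hw W.a₂ W.a₆ hb N hN1 hNa
  set δ := c ^ 2 / (2 * N) with hδ
  have hδ0 : 0 < δ := by positivity
  have hNδ : δ * (2 * N) = c ^ 2 := by
    rw [hδ]
    field_simp
  have hcc : c ^ 2 ≤ c := by nlinarith
  have hNδ' : δ * N < c := by nlinarith
  have hδc : δ < c := by nlinarith
  have hδ2 : (δ * N) ^ 2 < w W.a₆ := by nlinarith
  refine ⟨δ, hδ0, ?_⟩
  intro P Q x y x' y' hP hQ hx hy hx' hy' hxx hyy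
  rw [hneg] at hxx hyy
  have hx := hx.trans hMN
  have hx' := hx'.trans hMN
  have hy := hy.trans hMN
  have hy' := hy'.trans hMN
  obtain ⟨_, _, _, ey⟩ := p2 P x y hP
  obtain ⟨_, _, _, ey'⟩ := p2 Q x' y' hQ
  have nQ := p5 Q x' y' hQ
  rw [sub_eq_add_neg P Q]
  by_cases hxe : x = x'
  · subst hxe
    have h3 : (y + y') * (y + y' + x) = 0 := by
      linear_combination ey + ey' + (x ^ 3 + W.a₂ * x ^ 2 + W.a₆ + y * y') * h20
    rcases mul_eq_zero.1 h3 with h4 | h4
    · have h5 : y' = y := by linear_combination h4 - y * h20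
      subst h5
      left
      rw [p4 P Q _ _ hP hQ, add_neg_cancel]
    · have h5 : x + y' = y := by linear_combination h4 - y * h20
      rw [h5] at nQ
      have h6 : -Q = P := p4 _ _ _ _ nQ hP
      rw [h6]
      by_cases hx0 : x = 0
      · left
        rw [hx0] at hP
        exact p8 P y hP
      · right
        obtain ⟨z, hz⟩ := p7 P x y hP hx0
        refine ⟨_, z, hz, ?_⟩
        have h7 : w x ≤ δ := by
          have h8 : x = -(y + y') := by linear_combination h4
          rw [h8, w.map_neg]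
          exact hyy
        have hx1 : 0 < w x := w.pos hx0
        have h8 : N ^ 2 < w (W.a₆ / x ^ 2) := by
          rw [map_div₀, map_pow, lt_div_iff₀ (by positivity)]
          have h9 : N ^ 2 * w x ^ 2 ≤ (δ * N) ^ 2 := by
            have : w x ^ 2 ≤ δ ^ 2 := pow_le_pow_left₀ hx1.le h7 2
            nlinarith
          linarith
        have h9 : w (x ^ 2) ≤ N ^ 2 := by
          rw [map_pow]
          exact pow_le_pow_left₀ hx1.le hx 2
        have h10 := cloT_big hw h8 h9
        have h11 : N ≤ N ^ 2 := by nlinarith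
        rw [add_comm (x ^ 2)]
        linarith
  · right
    obtain ⟨z, hz⟩ := p6 P (-Q) x y x' (x' + y') hP nQ hxe
    refine ⟨_, z, hz, ?_⟩
    have hxd : x + x' ≠ 0 := by
      intro h
      exact hxe (by linear_combination h - x' * h20)
    have hxd0 : 0 < w (x + x') := w.pos hxd
    have key : 2 * N ≤ w ((y + (x' + y')) / (x + x')) := by
      set g := x ^ 2 + x * x' + x' ^ 2 + W.a₂ * (x + x') + y with hg
      have hgy : (y + y') * (y + (x' + y')) = (x + x') * g := by
        rw [hg]
        linear_combination ey + ey' +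
          (W.a₆ + y * y' - x * y - W.a₂ * x * x' - x ^ 2 * x' - x * x' ^ 2) * h20
      have hge : g = (y + x ^ 2) + (x + x') * (x + (x + x') + W.a₂) := by
        rw [hg]
        linear_combination (-(x ^ 2) - x * x') * h20
      by_cases hf : c ≤ w x'
      · have h3 : c ≤ w (y + (x' + y')) := by
          have h4 := cloT_bige hw hf (hyy.trans_lt hδc)
          have h5 : x' + (y + y') = y + (x' + y') := by ring
          rw [h5] at h4
          exact h4
        rw [map_div₀, le_div_iff₀ hxd0]
        have h4 : 2 * N * w (x + x') ≤ 2 * N * δ := by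
          apply mul_le_mul_of_nonneg_left hxx
          positivity
        nlinarith
      · push Not at hf
        have h3 : w x < c := by
          have h4 : x = (x + x') + -x' := by ring
          rw [h4]
          refine (hw _ _).trans_lt (max_lt (hxx.trans_lt hδc) ?_)
          rw [w.map_neg]
          exact hf
        have h4 : c ≤ w (y + x ^ 2) := (hcf x y hx hy ey).resolve_left (not_le.2 h3)
        have h5 : w ((x + x') * (x + (x + x') + W.a₂)) < c := by
          rw [map_mul]
          have h6 : w (x + (x + x') + W.a₂) ≤ N :=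
            cloT_add hw (cloT_add hw hx (cloT_add hw hx hx')) hNa
          have h7 : w (x + x') * w (x + (x + x') + W.a₂) ≤ δ * N :=
            mul_le_mul hxx h6 (w.nonneg _) hδ0.le
          linarith
        have h6 : c ≤ w g := by
          rw [hge]
          exact cloT_bige hw h4 h5
        have hg0 : g ≠ 0 := by
          intro h
          rw [h, map_zero] at h6
          linarith
        have hyd : y + y' ≠ 0 := by
          intro h
          rw [h, zero_mul] at hgy
          exact mul_ne_zero hxd hg0 hgy.symm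
        have hyd0 : 0 < w (y + y') := w.pos hyd
        have h7 : (y + (x' + y')) / (x + x') = g / (y + y') := by
          rw [div_eq_div_iff hxd hyd]
          linear_combination hgy
        rw [h7, map_div₀, le_div_iff₀ hyd0]
        have h8 : 2 * N * w (y + y') ≤ 2 * N * δ := by
          apply mul_le_mul_of_nonneg_left hyy
          positivity
        nlinarith
    have h11 := cloT_l hw hN1 key (cloT_add hw hNa (cloT_add hw hx hx'))
    refine lt_of_le_of_lt hMN (lt_of_lt_of_eq h11 (congrArg w ?_))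
    ring

end Pool.Agent.MP72P
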