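import Pool.Agent.Lib.MP_72e2e6_nt.P3.EN2.Spec

/-!
# MP_72e2e6_nt, theorem T3p, block EN2: DbfT, the fibres of the doubling are finite
-/

set_option autoImplicit false

namespace Pool.Agent.MP72P

open Polynomial WeierstrassCurve
open Pool.Agent.MP72W (pmap)
open Pool.Agent.MP72V

open scoped Classical

private theorem dbfT_two (p : ℕ) (hp2 : p = 2) (K : Type) [Field K] [CharP K p] :
    (2 : K) = 0 := by
  have h := CharP.cast_eq_zero K p
  rw [hp2] at h
  exact_mod_cast h

/-- the zeros of a polynomial -/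
private theorem dbfT_roots {L : Type} [Field L] (f : L[X]) (hf : f ≠ 0) :
    {x : L | f.eval x = 0}.Finite := by
  refine (f.roots.toFinset.finite_toSet).subset ?_
  intro x hx
  rw [Finset.mem_coe, Multiset.mem_toFinset, mem_roots hf]
  exact hx

/-- **DbfT**. The fibres of the multiplication by `2` are finite. -/
theorem tDbfT (h1 : S_PtT) (h2 : S_BasT) : S_DbfT := by
  intro p hp hp2 K _ _ W hW L _ _ R
  have h20 : (2 : K) = 0 := dbfT_two p hp2 K
  obtain ⟨b20, bnf, -⟩ := h2.1 K h20 W hW L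
  obtain ⟨p1, p2, -, p4, -, -, p7, -⟩ := h1 L b20 (W⁄L).toAffine bnf
  set a := (W⁄L).toAffine.a₂ with ha
  set b := (W⁄L).toAffine.a₆ with hb
  set f : L[X] := X ^ 5 + C (px R) * X ^ 3 + C b * X with hf
  have hf0 : f ≠ 0 := by
    have : f.coeff 5 = 1 := by
      rw [hf]
      simp
    intro h
    rw [h, coeff_zero] at this
    exact zero_ne_one this
  have hA := dbfT_roots f hf0
  have hB : ∀ x : L, {y : L | y ^ 2 + x * y = x ^ 3 + a * x ^ 2 + b}.Finite := by
    intro x
    set g : L[X] := X ^ 2 + C x * X - C (x ^ 3 + a * x ^ 2 + b) with hg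
    have hg0 : g ≠ 0 := by
      have : g.coeff 2 = 1 := by
        rw [hg]
        generalize x ^ 3 + a * x ^ 2 + b = c
        simp
      intro h
      rw [h, coeff_zero] at this
      exact zero_ne_one this
    refine (dbfT_roots g hg0).subset ?_
    intro y hy
    have hy' : y ^ 2 + x * y = x ^ 3 + a * x ^ 2 + b := hy
    show g.eval y = 0
    rw [hg]
    simp only [eval_sub, eval_add, eval_pow, eval_X, eval_mul, eval_C]
    linear_combination hy'
  have hT : (⋃ x ∈ {x : L | f.eval x = 0},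
      (fun y => (x, y)) '' {y : L | y ^ 2 + x * y = x ^ 3 + a * x ^ 2 + b}).Finite :=
    Set.Finite.biUnion hA fun x _ => (hB x).image _
  have hinj : Set.InjOn (fun P : (W⁄L).toAffine.Point => (px P, py P))
      ({P | p • P = R} \ {0}) := by
    rintro P ⟨-, hP0⟩ P' ⟨-, hP'0⟩ he
    simp only [Prod.mk.injEq] at he
    obtain ⟨x, y, hxy⟩ := (p1 P).resolve_left hP0
    obtain ⟨x', y', hxy'⟩ := (p1 P').resolve_left hP'0
    rw [(p2 _ _ _ hxy).2.1, (p2 _ _ _ hxy').2.1, (p2 _ _ _ hxy).2.2.1,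
      (p2 _ _ _ hxy').2.2.1] at he
    obtain ⟨rfl, rfl⟩ := he
    exact p4 _ _ _ _ hxy hxy'
  have hfin : ({P : (W⁄L).toAffine.Point | p • P = R} \ {0}).Finite := by
    refine Set.Finite.of_finite_image (hT.subset ?_) hinj
    rintro _ ⟨P, ⟨hP, hP0⟩, rfl⟩
    obtain ⟨x, y, hxy⟩ := (p1 P).resolve_left hP0
    obtain ⟨-, e1, e2, e3⟩ := p2 _ _ _ hxy
    refine Set.mem_biUnion (x := x) ?_ ⟨y, e3, ?_⟩
    · show f.eval x = 0
      rw [hf]
      simp only [eval_add, eval_pow, eval_X, eval_mul, eval_C]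
      by_cases hx : x = 0
      · rw [hx]
        ring
      · obtain ⟨z, hz⟩ := p7 P x y hxy hx
        have hP' : p • P = R := hP
        subst hp2
        rw [two_nsmul] at hP'
        rw [hP'] at hz
        have e4 : px R = x ^ 2 + b / x ^ 2 := (p2 _ _ _ hz).2.1
        rw [e4]
        field_simp
        linear_combination (x ^ 5 + b * x) * b20
    · show (x, y) = (px P, py P)
      rw [e1, e2]
  refine (hfin.union (Set.finite_singleton (0 : (W⁄L).toAffine.Point))).subset ?_
  intro P hP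
  by_cases hP0 : P = 0
  · exact Or.inr hP0
  · exact Or.inl ⟨hP, hP0⟩

end Pool.Agent.MP72P
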