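import Pool.Agent.Lib.MP_72e2e6_nt.P3.EN2.Spec

/-!
# MP_72e2e6_nt, theorem T3p, block EN2: DviT, divisible groups of points are torsion groups
-/

set_option autoImplicit false

namespace Pool.Agent.MP72P

open Polynomial WeierstrassCurve
open Pool.Agent.MP72W (pmap)
open Pool.Agent.MP72V

open scoped Classical

private theorem dviT_two (p : ℕ) (hp2 : p = 2) (K : Type) [Field K] [CharP K p] :
    (2 : K) = 0 := by
  have h := CharP.cast_eq_zero K p
  rw [hp2] at h
  exact_mod_cast h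

/-- **DviT**. Divisible groups of points are torsion groups. -/
theorem tDviT (h1 : S_PtT) (h2 : S_BasT) (h3 : S_NbhT) (h4 : S_CloT) (h5 : S_Cvr) : S_DviT := by
  intro p hp hp2 K _ _ W hW L _ _ w Q ϖ R hLF
  have h20 : (2 : K) = 0 := dviT_two p hp2 K
  have hcL : CharP L p := charP_of_injective_algebraMap (algebraMap K L).injective p
  obtain ⟨b20, bnf, -⟩ := h2.1 K h20 W hW L
  obtain ⟨p1, p2, -⟩ := h1 L b20 (W⁄L).toAffine bnf
  obtain ⟨M₀, hM₀, hnb⟩ := h3 p hp2 K W hW L w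
  have hp1 : 1 < p := hp.out.one_lt
  -- (a)
  have ha : ∀ (j : ℕ) (P : (W⁄L).toAffine.Point) (x y : L), XY P x y → M₀ < w x →
      ∃ x' y' : L, XY (p ^ j • P) x' y' ∧ 2 ^ j * w x ≤ w x' := by
    intro j
    induction j with
    | zero =>
      intro P x y hP hx
      refine ⟨x, y, ?_, by rw [pow_zero, one_mul]⟩
      rw [pow_zero, one_nsmul]
      exact hP
    | succ j ih =>
      intro P x y hP hx
      have e1 : p ^ (j + 1) • P = p • (p ^ j • P) := by
        rw [pow_succ, mul_comm, mul_nsmul, ← mul_nsmul, mul_nsmul']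
      obtain ⟨x', y', hxy, hle⟩ := ih P x y hP hx
      have hx' : M₀ < w x' := by
        have : (1 : ℝ) ≤ 2 ^ j := one_le_pow₀ one_le_two
        nlinarith [w.nonneg x]
      obtain ⟨x'', y'', hxy', hle'⟩ := hnb _ _ _ hxy hx'
      refine ⟨x'', y'', by rw [e1]; exact hxy', ?_⟩
      rw [pow_succ]
      nlinarith
  -- the bound for `y`
  obtain ⟨M, hM₀M, hMy⟩ : ∃ M : ℝ, M₀ ≤ M ∧ ∀ (P : (W⁄L).toAffine.Point) (x y : L), XY P x y →
      w x ≤ M₀ → w y ≤ M := by
    set B : ℝ := M₀ ^ 3 + w (W⁄L).toAffine.a₂ * M₀ ^ 2 + w (W⁄L).toAffine.a₆ with hB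
    have hB0 : 0 ≤ B := by
      have := w.nonneg (W⁄L).toAffine.a₂
      have := w.nonneg (W⁄L).toAffine.a₆
      positivity
    refine ⟨M₀ + B + 1, by linarith, fun P x y hP hx => ?_⟩
    obtain ⟨-, -, -, heq⟩ := p2 P x y hP
    have h6 : w y ^ 2 ≤ B + M₀ * w y := by
      have h8 : y ^ 2 = x ^ 3 + (W⁄L).toAffine.a₂ * x ^ 2 + (W⁄L).toAffine.a₆ - x * y := by
        rw [← heq]
        ring
      rw [← map_pow, h8, sub_eq_add_neg]
      refine (w.add_le _ _).trans (add_le_add ?_ ?_)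
      · rw [hB]
        refine (w.add_le _ _).trans (add_le_add
          ((w.add_le _ _).trans (add_le_add ?_ ?_)) le_rfl)
        · rw [map_pow]
          exact pow_le_pow_left₀ (w.nonneg _) hx _
        · rw [map_mul, map_pow]
          exact mul_le_mul_of_nonneg_left (pow_le_pow_left₀ (w.nonneg _) hx _) (w.nonneg _)
      · rw [AbsoluteValue.map_neg, map_mul]
        exact mul_le_mul_of_nonneg_right hx (w.nonneg _)
    by_contra hc
    push Not at hc
    nlinarith
  obtain ⟨δ, hδ, hclo⟩ := h4 p hp2 L (W⁄L).toAffine bnf w M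
  obtain ⟨N, cl, hcl⟩ := h5 p L w Q ϖ R hLF M δ hδ
  -- the number `m`
  refine ⟨∏ d ∈ Finset.Icc 1 ((N + 1) * (N + 1)), (p ^ d - 1), ?_, ?_⟩
  · rw [Nat.one_le_iff_ne_zero, Finset.prod_ne_zero_iff]
    intro d hd
    have h6 : 1 < p ^ d := Nat.one_lt_pow (by have := (Finset.mem_Icc.1 hd).1; omega) hp1
    omega
  intro G' hG' P hP
  by_cases hP0 : P = 0
  · rw [hP0, nsmul_zero]
  by_contra hm
  have hd : ∀ d, 1 ≤ d → d ≤ (N + 1) * (N + 1) → (p ^ d - 1) • P ≠ 0 := by
    intro d hd1 hd2 h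
    apply hm
    obtain ⟨c, hc⟩ := Finset.dvd_prod_of_mem (fun d => p ^ d - 1) (Finset.mem_Icc.2 ⟨hd1, hd2⟩)
    rw [hc, mul_nsmul, h, nsmul_zero]
  -- the sequence
  choose! g hg1 hg2 using hG'
  let S : ℕ → (W⁄L).toAffine.Point := fun i => g^[i] P
  have hS0 : S 0 = P := rfl
  have hSG : ∀ i, S i ∈ G' := by
    intro i
    induction i with
    | zero => exact hP
    | succ i ih =>
      simp only [S]
      rw [Function.iterate_succ_apply']
      exact hg1 _ ih
  have hSs : ∀ i, p • S (i + 1) = S i := by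
    intro i
    simp only [S]
    rw [Function.iterate_succ_apply']
    exact hg2 _ (hSG i)
  have hSp : ∀ i, p ^ i • S i = P := by
    intro i
    induction i with
    | zero => rw [pow_zero, one_nsmul, hS0]
    | succ i ih => rw [pow_succ, mul_comm, mul_nsmul, hSs, ih]
  have hSn : ∀ i, S i ≠ 0 := by
    intro i h
    apply hP0
    rw [← hSp i, h, nsmul_zero]
  have hco : ∀ i, ∃ x y, XY (S i) x y := fun i => (p1 (S i)).resolve_left (hSn i)
  choose X Y hXY using hco
  -- (b)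
  have hb : ∀ i, w (X 0) ≤ 2 ^ i → w (X i) ≤ M₀ := by
    intro i hi
    by_contra hc
    push Not at hc
    obtain ⟨x', y', hxy, hle⟩ := ha i _ _ _ (hXY i) hc
    rw [hSp, ← hS0] at hxy
    have e1 : x' = X 0 := by
      rw [← (p2 _ _ _ hxy).2.1, (p2 _ _ _ (hXY 0)).2.1]
    rw [e1] at hle
    have h6 : (0 : ℝ) < 2 ^ i := by positivity
    nlinarith
  -- (c)
  obtain ⟨n, hn⟩ := pow_unbounded_of_one_lt (w (X 0) +
    ∑ d ∈ Finset.range ((N + 1) * (N + 1) + 1), w (px ((p ^ d - 1) • P))) (one_lt_two (α := ℝ))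
  have hsum0 : 0 ≤ ∑ d ∈ Finset.range ((N + 1) * (N + 1) + 1), w (px ((p ^ d - 1) • P)) :=
    Finset.sum_nonneg fun d _ => w.nonneg _
  have hbn : ∀ i, n ≤ i → w (X i) ≤ M₀ := by
    intro i hi
    apply hb
    have h6 : (2 : ℝ) ^ n ≤ 2 ^ i := pow_le_pow_right₀ one_le_two hi
    linarith
  have hzd : ∀ d, d ≤ (N + 1) * (N + 1) → w (px ((p ^ d - 1) • P)) < 2 ^ n := by
    intro d hd
    have h6 := Finset.single_le_sum (f := fun d => w (px ((p ^ d - 1) • P)))
      (fun d _ => w.nonneg _) (Finset.mem_range.2 (Nat.lt_succ_of_le hd))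
    have := w.nonneg (X 0)
    linarith
  -- the main step
  have hmain : ∀ i j, n ≤ i → i < j → j ≤ i + (N + 1) * (N + 1) → cl (X i) = cl (X j) →
      cl (Y i) = cl (Y j) → False := by
    intro i j hni hij hj hcx hcy
    obtain ⟨d, rfl⟩ := Nat.exists_eq_add_of_lt hij
    have hd1 : (p ^ (d + 1) - 1) • P ≠ 0 := hd (d + 1) (by omega) (by omega)
    have hX1 := hbn i hni
    have hX2 := hbn (i + d + 1) (by omega)
    have hY1 := hMy _ _ _ (hXY i) hX1
    have hY2 := hMy _ _ _ (hXY (i + d + 1)) hX2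
    have hX1' := hX1.trans hM₀M
    have hX2' := hX2.trans hM₀M
    have hT : p ^ (i + d + 1) • (S i - S (i + d + 1)) = (p ^ (d + 1) - 1) • P := by
      have e1 : p ^ (i + d + 1) • S i = p ^ (d + 1) • P := by
        rw [show i + d + 1 = i + (d + 1) by ring, pow_add, mul_nsmul, hSp]
      rw [nsmul_sub, e1, hSp, sub_nsmul _ (Nat.one_le_pow _ _ hp.out.pos), one_nsmul,
        ← sub_eq_add_neg]
    rcases hclo _ _ _ _ _ _ (hXY i) (hXY (i + d + 1)) hX1' hY1 hX2' hY2
      (hcl _ _ hX1' hX2' hcx) (hcl _ _ hY1 hY2 hcy) with h | ⟨x, y, hxy, hMx⟩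
    · rw [h, nsmul_zero] at hT
      exact hd1 hT.symm
    · obtain ⟨x', y', hxy', hle⟩ := ha (i + d + 1) _ _ _ hxy (lt_of_le_of_lt hM₀M hMx)
      rw [hT] at hxy'
      have e1 := (p2 _ _ _ hxy').2.1
      have h6 := hzd (d + 1) (by omega)
      rw [e1] at h6
      have h7 : (2 : ℝ) ^ n ≤ 2 ^ (i + d + 1) := pow_le_pow_right₀ one_le_two (by omega)
      have h8 : (0 : ℝ) < 2 ^ (i + d + 1) := by positivity
      nlinarith
  -- pigeonhole
  obtain ⟨a, b, hab, heq⟩ := Fintype.exists_ne_map_eq_of_card_lt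
    (fun k : Fin ((N + 1) * (N + 1) + 1) => (cl (X (n + k)), cl (Y (n + k))))
    (by rw [Fintype.card_prod, Fintype.card_fin, Fintype.card_fin]; omega)
  simp only [Prod.mk.injEq] at heq
  have ha' := a.2
  have hb' := b.2
  rcases lt_or_gt_of_ne hab with h | h
  · have h' : (a : ℕ) < b := h
    exact hmain (n + a) (n + b) (by omega) (by omega) (by omega) heq.1 heq.2
  · have h' : (b : ℕ) < a := h
    exact hmain (n + b) (n + a) (by omega) (by omega) (by omega) heq.1.symm heq.2.symm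

end Pool.Agent.MP72P
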