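import Pool.Agent.Lib.MP_72e2e6_nt.P3.EN2.Spec

/-!
# MP_72e2e6_nt, theorem T3p, block EN2: NbhT, near `O` the doubling enlarges the abscissa
-/

set_option autoImplicit false

namespace Pool.Agent.MP72P

open Polynomial WeierstrassCurve
open Pool.Agent.MP72W (pmap)
open Pool.Agent.MP72V

open scoped Classical

private theorem nbhT_two (p : ℕ) (hp2 : p = 2) (K : Type) [Field K] [CharP K p] :
    (2 : K) = 0 := by
  have h := CharP.cast_eq_zero K p
  rw [hp2] at h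
  exact_mod_cast h

/-- **NbhT**. Near `O` the multiplication by `2` enlarges the abscissa. -/
theorem tNbhT (h1 : S_PtT) (h2 : S_BasT) : S_NbhT := by
  intro p hp hp2 K _ _ W hW L _ _ w
  have h20 : (2 : K) = 0 := nbhT_two p hp2 K
  obtain ⟨b20, bnf, -⟩ := h2.1 K h20 W hW L
  obtain ⟨-, -, -, -, -, -, p7, -⟩ := h1 L b20 (W⁄L).toAffine bnf
  have ha0 : 0 ≤ w (W⁄L).toAffine.a₆ := w.nonneg _
  refine ⟨3 + w (W⁄L).toAffine.a₆, by linarith, ?_⟩
  intro P x y hP hx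
  have hx0 : 0 < w x := by linarith
  have hxne : x ≠ 0 := by
    rintro rfl
    rw [map_zero] at hx0
    exact lt_irrefl _ hx0
  obtain ⟨z, hz⟩ := p7 P x y hP hxne
  refine ⟨_, z, by subst hp2; rw [two_nsmul]; exact hz, ?_⟩
  have h3 : w ((W⁄L).toAffine.a₆ / x ^ 2) ≤ w (W⁄L).toAffine.a₆ := by
    rw [map_div₀, map_pow]
    apply div_le_self ha0
    nlinarith
  have h4 : w x ^ 2 ≤ w (x ^ 2 + (W⁄L).toAffine.a₆ / x ^ 2) +
      w ((W⁄L).toAffine.a₆ / x ^ 2) := by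
    have h5 : x ^ 2 = (x ^ 2 + (W⁄L).toAffine.a₆ / x ^ 2) + -((W⁄L).toAffine.a₆ / x ^ 2) := by
      ring
    calc w x ^ 2 = w (x ^ 2) := (map_pow _ _ _).symm
      _ = w ((x ^ 2 + (W⁄L).toAffine.a₆ / x ^ 2) + -((W⁄L).toAffine.a₆ / x ^ 2)) :=
        congrArg w h5
      _ ≤ _ := (w.add_le _ _).trans_eq (by rw [w.map_neg])
  nlinarith

end Pool.Agent.MP72P
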