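import Pool.Agent.Lib.MP_72e2e6_nt.P3.EN2.Spec

/-! # MP_72e2e6_nt, theorem T3p, block EN for `p = 2`: points in characteristic two -/

namespace Pool.Agent.MP72P

open Polynomial WeierstrassCurve
open Pool.Agent.MP72W (pmap)
open Pool.Agent.MP72V

open scoped Classical

private theorem ptT_px {L : Type} [Field L] {W : WeierstrassCurve.Affine L} (P : W.Point) :
    MP72W.px P = px P := by
  cases P <;> rfl

private theorem ptT_py {L : Type} [Field L] {W : WeierstrassCurve.Affine L} (P : W.Point) :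
    MP72W.py P = py P := by
  cases P <;> rfl

theorem tPtT (h1 : MP72W.S_Pts) : S_PtT := by
  intro L _ h2 W hW
  have hc : CharP L 2 := CharTwo.of_one_ne_zero_of_two_eq_zero one_ne_zero h2
  have hE : MP72W.IsEc W := ⟨hW.a1, hW.a3, hW.a4, hW.a6.ne_zero⟩
  obtain ⟨p1, p2, p3, p4, p5, p6, p7, p8, p9, p10⟩ := h1 L W hE
  have q2 : ∀ (P : W.Point) (x y : L), XY P x y → P ≠ 0 ∧ px P = x ∧ py P = y ∧
      y ^ 2 + x * y = x ^ 3 + W.a₂ * x ^ 2 + W.a₆ := by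
    intro P x y h
    obtain ⟨a, b, c, d⟩ := p2 P x y h
    exact ⟨a, by rw [← ptT_px]; exact b, by rw [← ptT_py]; exact c, d⟩
  refine ⟨p1, q2, p3, p4, p5, ?_, fun P x y h hx => ⟨_, (p7 P x y h hx).2⟩,
    fun P y h => (p8 P y h).1⟩
  intro P Q x y x' y' hP hQ hne
  obtain ⟨hP0, hPx, -, -⟩ := p2 P x y hP
  obtain ⟨hQ0, hQx, -, -⟩ := p2 Q x' y' hQ
  have hPQ : P + Q ≠ 0 := by
    intro h0
    have h3 : Q = -P := (neg_eq_of_add_eq_zero_right h0).symm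
    obtain ⟨-, h4, -, -⟩ := p2 (-P) x (x + y) (p5 P x y hP)
    rw [← h3, hQx] at h4
    exact hne h4.symm
  obtain h0 | ⟨X, Y, hXY⟩ := p1 (P + Q)
  · exact absurd h0 hPQ
  obtain ⟨-, hX, -, -⟩ := p2 (P + Q) X Y hXY
  obtain ⟨h5, -⟩ := p10 P Q hP0 hQ0 hPQ
  rw [hX, p6 P Q x y x' y' hP hQ hne, hPx, hQx] at h5
  exact ⟨Y, by rw [← h5]; exact hXY⟩

end Pool.Agent.MP72P
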