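import Pool.Agent.Lib.MP_72e2e6_nt.P3.E2.Spec
import Pool.Agent.Lib.MP_72e2e6_nt.P3.EN.Spec
import Pool.Agent.Lib.MP_72e2e6_nt.W2.D.Spec

/-!
# MP_72e2e6_nt, theorem T3p, block EN for `p = 2`: a divisible group of vectors of rational points is finite

The proofs are complete in the docstrings; every module is independent (used statements are
hypotheses): file `P3/EN2/<Name>.lean` (import this file only) with `theorem t<Name> : S_<Name>` or
`theorem t<Name> (h1 : S_X) (h2 : S_Y) .. : S_<Name>` (in the order of the docstring), namespace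
`Pool.Agent.MP72P` (`open Pool.Agent.MP72V`), other declarations `private`, `open scoped Classical`. The
curve is `W : y ^ 2 + x y = x ^ 3 + a₂ x ^ 2 + a₆` (`IsN2 W`) in characteristic two. `w` is an absolute value, it is
nonarchimedean (`S_Na`). In the modules `DviT`, `FxhT`, `ENT` copy the proofs of `P3/EN/Dvi.lean`, `Fxh.lean`,
`EN.lean` (`p ≠ 2` becomes `p = 2`, `IsNf` becomes `IsN2`, `(2 : K) ≠ 0` becomes `(2 : K) = 0`: `CharP K p`, `p = 2`).
-/

namespace Pool.Agent.MP72P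

open Polynomial WeierstrassCurve
open Pool.Agent.MP72W (pmap)
open Pool.Agent.MP72V

open scoped Classical

/-- **PtT** (120 lines, uses `MP72W.S_Pts`). Points in characteristic two.

Proof. `MP72W.S_Pts` (`W2/D/Spec.lean`; `CharP L 2` from `(2 : L) = 0`: `CharTwo` lemmas or
`CharP.ofCharZero..`, e.g. `CharTwo.of_one_ne_zero_of_two_eq_zero`) with the definitions `XY`, `px`, `py` of
`WP/El/Defs.lean` (the same as in `MP72W`, see `WP/El2/Gen.lean`: `px_eq`, `py_eq`). (6): `P + Q ≠ O` since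
`Q = - P` has the same abscissa as `P`. -/
def S_PtT : Prop :=
  ∀ (L : Type) [Field L], (2 : L) = 0 → ∀ W : WeierstrassCurve.Affine L, IsN2 W →
    (∀ P : W.Point, P = 0 ∨ ∃ x y, XY P x y) ∧
    (∀ (P : W.Point) (x y : L), XY P x y → P ≠ 0 ∧ px P = x ∧ py P = y ∧
      y ^ 2 + x * y = x ^ 3 + W.a₂ * x ^ 2 + W.a₆) ∧
    (∀ x y : L, y ^ 2 + x * y = x ^ 3 + W.a₂ * x ^ 2 + W.a₆ → ∃ P : W.Point, XY P x y) ∧
    (∀ (P Q : W.Point) (x y : L), XY P x y → XY Q x y → P = Q) ∧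
    (∀ (P : W.Point) (x y : L), XY P x y → XY (-P) x (x + y)) ∧
    (∀ (P Q : W.Point) (x y x' y' : L), XY P x y → XY Q x' y' → x ≠ x' →
      ∃ z, XY (P + Q) (((y + y') / (x + x')) ^ 2 + (y + y') / (x + x') + W.a₂ + x + x') z) ∧
    (∀ (P : W.Point) (x y : L), XY P x y → x ≠ 0 →
      ∃ z, XY (P + P) (x ^ 2 + W.a₆ / x ^ 2) z) ∧
    ∀ (P : W.Point) (y : L), XY P 0 y → P + P = 0

/-- **NbhT** (50 lines, uses `S_PtT`, `S_BasT`). Near `O` the multiplication by `2` enlarges the abscissa.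

Proof. `2 • P = P + P` has the abscissa `x ^ 2 + a₆ / x ^ 2` (`S_PtT` (7)), `w (a₆ / x ^ 2) ≤ w a₆` for `w x ≥ 1`, so its value
is `≥ (w x) ^ 2 - w a₆ ≥ 2 w x` for `w x > M₀ = 3 + w a₆`. (The curve `W⁄L` satisfies `IsN2` and `(2 : L) = 0`: `S_BasT` (1).) -/
def S_NbhT : Prop :=
  ∀ (p : ℕ) [Fact p.Prime], p = 2 → ∀ (K : Type) [Field K] [CharP K p]
    (W : WeierstrassCurve K), IsN2 W → ∀ (L : Type) [Field L] [Algebra K L]
    (w : AbsoluteValue L ℝ), ∃ M₀ : ℝ, 1 ≤ M₀ ∧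
      ∀ (P : (W⁄L).toAffine.Point) (x y : L), XY P x y → M₀ < w x →
        ∃ x' y' : L, XY (p • P) x' y' ∧ 2 * w x ≤ w x'

/-- **CloT** (200 lines, uses `S_PtT`, `S_Na`). The difference of two near points is near `O`.

Proof. `a = a₂`, `b = a₆ ≠ 0`; `u + u = 0` and `u - v = u + v` in `L`. Let `N ≥ 1` be at least `M`, `w a`, `w b`; all of `w x`, `w y`,
`w x'`, `w y'` are `≤ N`. Let `t = y + x ^ 2`. On the curve `b = t ^ 2 + x (t + x ^ 3 + a x)` (characteristic two), and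
`w (t + x ^ 3 + a x) ≤ N ^ 3`, `w t ≤ N ^ 2`. So there is `c`, `0 < c ≤ 1`, (for instance `c = min 1 (w b) / (2 N ^ 3)`) with `c ≤ w x` or
`c ≤ w t` for all these points (otherwise `w b ≤ max (c ^ 2) (c N ^ 3) < w b`). Let `δ > 0` be small: `δ < c` and
`δ N < c` and `N δ < c ^ 2` hold for `δ = c ^ 2 / (2 N)` (`c ^ 2 ≤ c`). Let `P = (x, y)`, `Q = (x', y')`, `dx = x + x'`, `dy = y + y'`,
`- Q = (x', x' + y')`. (b) `x = x'`: `(y + y') (y + y' + x) = 0`. If `y = y'` then `P = Q` and `P - Q = O`. Otherwise `x = y + y'`, so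
`w x ≤ δ`, and `- Q = P`. If `x = 0` then `P + P = O`. If `x ≠ 0` then `P - Q = P + P` has the abscissa `x ^ 2 + b / x ^ 2`,
`w (b / x ^ 2) ≥ w b / δ ^ 2`, which is `> N ^ 2 ≥ w (x ^ 2)` and `> M` if `δ ^ 2 N ^ 2 < w b` (also required of `δ`; true for
`δ = c ^ 2 / (2 N)` as `c ≤ w b`, `c ≤ 1`). So the value is `w (b / x ^ 2) > M`. (c) `x ≠ x'`: the abscissa of `P - Q = P + (- Q)` is
`l ^ 2 + l + a + x + x'` with `l = (dy + x') / dx`. From the two equations `dy (dy + x') = dx g`,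
`g = y + x ^ 2 + x dx + dx ^ 2 + a dx = t + dx (x + dx + a)` (characteristic two: use `linear_combination` with the two
equations and a multiple of `h2 : (2 : L) = 0`). If `w x' ≥ c`: `w dy ≤ δ < c`, so
`w (dy + x') = w x' ≥ c` and `w l ≥ c / δ`. If `w x' < c`: then `w x ≤ max (w x') (w dx) < c`, so `w t ≥ c`; `w (dx (x + dx + a)) ≤
δ N < c`, so `w g = w t ≥ c`, `g ≠ 0`, so `dy ≠ 0`, `l = g / dy`, `w l ≥ c / δ`. As `c / δ = 2 N / c ≥ 2 N` we have `w l ≥ 2 N`, `w l > 1`,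
`w (l ^ 2) = (w l) ^ 2 > w l`, `w (l ^ 2) > N ≥ w a, w dx`, so the value of the abscissa is `(w l) ^ 2 ≥ 4 N ^ 2 > M`. -/
def S_CloT : Prop :=
  ∀ (p : ℕ) [Fact p.Prime], p = 2 → ∀ (L : Type) [Field L] [CharP L p]
    (W : WeierstrassCurve.Affine L), IsN2 W → ∀ (w : AbsoluteValue L ℝ) (M : ℝ),
    ∃ δ : ℝ, 0 < δ ∧ ∀ (P Q : W.Point) (x y x' y' : L), XY P x y → XY Q x' y' →
      w x ≤ M → w y ≤ M → w x' ≤ M → w y' ≤ M → w (x - x') ≤ δ → w (y - y') ≤ δ →
      P - Q = 0 ∨ ∃ x'' y'' : L, XY (P - Q) x'' y'' ∧ M < w x''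

/-- **DbfT** (100 lines, uses `S_PtT`, `S_BasT`). The fibres of the multiplication by `2` are finite.

Proof. Let `P = (x, y)`, `2 P = R`. If `x ≠ 0` then `R = (x', y')` with `x' = x ^ 2 + a₆ / x ^ 2`, `x' = px R`, so
`x ^ 4 + px R x ^ 2 + a₆ = 0` (characteristic two). So `x` is a root of `X (X ^ 4 + px R X ^ 2 + a₆) ≠ 0`, and `y` is a root of
`Y ^ 2 + x Y + (x ^ 3 + a₂ x ^ 2 + a₆) ≠ 0`; a point is determined by `(x, y)` (`S_PtT` (4)). -/
def S_DbfT : Prop :=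
  ∀ (p : ℕ) [Fact p.Prime], p = 2 → ∀ (K : Type) [Field K] [CharP K p]
    (W : WeierstrassCurve K), IsN2 W → ∀ (L : Type) [Field L] [Algebra K L]
    (R : (W⁄L).toAffine.Point), {P : (W⁄L).toAffine.Point | p • P = R}.Finite

/-- **TorT** (200 lines, uses `S_PtT`, `S_BasT`, `S_NbhT`, `S_CloT`, `S_Cvr`, `S_DbfT`). The torsion of exponent `n` is
finite.

Proof. `n = 2 ^ a m`, `m` odd (`Nat.exists_eq_two_pow_mul_odd`). (1) `T = {P | m P = O}` is finite: let `M₀` be as in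
`S_NbhT`. By iteration `w x > M₀` implies `2 ^ j P = (x', y')` with `w x' ≥ 2 ^ j w x`. If `P = (x, y) ∈ T` then `w x ≤ M₀`: for
`e = φ(m) ≥ 1` `2 ^ e P = P` (`Nat.ModEq.pow_totient`), so `w x ≥ 2 ^ e w x > w x` otherwise. Let `M ≥ M₀` be such that
`w y ≤ M` for all points `(x, y)` with `w x ≤ M₀` (`y ^ 2 = x y + x ^ 3 + a₂ x ^ 2 + a₆` up to sign; if `w y ≥ 1` then
`(w y) ^ 2 ≤ (w x + w (x ^ 3 + a₂ x ^ 2 + a₆)) w y`), `δ` as in `S_CloT` for this `M`, `N` and `cl` as in `S_Cvr`. The map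
`P ↦ (cl x, cl y)` is injective on `T \ {O}`: if `P ≠ Q` have the same image then `P - Q ∈ T` is not `O`, so it is `(x'', y'')`
with `w x'' > M ≥ M₀`, a contradiction. (2) Induction on `a`: `{P | 2 ^ (a + 1) m P = O}` is the preimage of
`{P | 2 ^ a m P = O}` under the multiplication by `2`; `S_DbfT`, `Set.Finite.biUnion` or `Set.Finite.preimage'`. -/
def S_TorT : Prop :=
  ∀ (p : ℕ) [Fact p.Prime], p = 2 → ∀ (K : Type) [Field K] [CharP K p]
    (W : WeierstrassCurve K), IsN2 W → ∀ (L : Type) [Field L] [Algebra K L]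
    (w : AbsoluteValue L ℝ) (Q : ℕ) (ϖ : L) (R : Finset L), LF w p Q ϖ R →
    ∀ n : ℕ, 1 ≤ n → {P : (W⁄L).toAffine.Point | n • P = 0}.Finite

/-- **DviT** (250 lines, uses `S_PtT`, `S_BasT`, `S_NbhT`, `S_CloT`, `S_Cvr`). Divisible groups of points are
torsion groups.

Proof. Copy of `P3/EN/Dvi.lean`; only the bound for `y` is different (see `S_TorT`). -/
def S_DviT : Prop :=
  ∀ (p : ℕ) [Fact p.Prime], p = 2 → ∀ (K : Type) [Field K] [CharP K p]
    (W : WeierstrassCurve K), IsN2 W → ∀ (L : Type) [Field L] [Algebra K L]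
    (w : AbsoluteValue L ℝ) (Q : ℕ) (ϖ : L) (R : Finset L), LF w p Q ϖ R →
    ∃ m : ℕ, 1 ≤ m ∧ ∀ G' : AddSubgroup (W⁄L).toAffine.Point,
      (∀ P ∈ G', ∃ P' ∈ G', p • P' = P) → ∀ P ∈ G', m • P = 0

/-- **FxhT** (100 lines, uses `S_BasT`). The vectors in `RatV` have components over a finite extension.

Proof. Copy of `P3/EN/Fxh.lean`. -/
def S_FxhT : Prop :=
  ∀ (p : ℕ) [Fact p.Prime], p = 2 → ∀ (K : Type) [Field K] [CharP K p]
    (W : WeierstrassCurve K), IsN2 W → ∀ h : Gal(Kgs K/K) → ZMod p, HomP p h →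
    ∃ L : IntermediateField K (Kgs K), FiniteDimensional K L ∧ ∀ v ∈ RatV W h,
      ∃ P : ZMod p → (W⁄L).toAffine.Point, ∀ i, pmap W L.val (P i) = v i

/-! **ENT** (150 lines, `theorem tENT (h1 : S_Plc) (h2 : S_Dsc) (h3 : S_Gfl) (h4 : S_BasT) (h5 : S_TorT)
(h6 : S_DviT) (h7 : S_FxhT) : S_ENT`, and `theorem tEN2 ... : S_EN2` with the same hypotheses, `S_EN2` being
`S_ENT` for `p = 2`; `S_ENT` is in `P3/E2/Spec.lean`, `S_EN2` in `WP/El2/Ifc.lean`). THE ENDGAME.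

Proof. Copy of `P3/EN/EN.lean`, with this difference: as `m P = O` for `P ∈ G'_i`, and `pmap W L.val` is injective, the
vectors `v = (pmap W L.val (P i))_i` satisfy `(m * p ^ (k - 1)) • P i = 0`, so the `P i` are in a finite set by `S_TorT`
(`n = m * p ^ (k - 1)`, the curve over `L`), and `RatV W h` is contained in the image of a finite set of functions
`ZMod p → W(L)` (`Set.Finite.pi'`, `Set.Finite.image`). -/

end Pool.Agent.MP72P
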