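import Pool.Agent.Lib.MP_72e2e6_nt.P3.EN2.Spec

/-!
# MP_72e2e6_nt, theorem T3p, block EN2: TorT, the torsion of exponent `n` is finite
-/

set_option autoImplicit false

namespace Pool.Agent.MP72P

open Polynomial WeierstrassCurve
open Pool.Agent.MP72W (pmap)
open Pool.Agent.MP72V

open scoped Classical

private theorem torT_two (p : ℕ) (hp2 : p = 2) (K : Type) [Field K] [CharP K p] :
    (2 : K) = 0 := by
  have h := CharP.cast_eq_zero K p
  rw [hp2] at h
  exact_mod_cast h

/-- **TorT**. The torsion of exponent `n` is finite. -/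
theorem tTorT (h1 : S_PtT) (h2 : S_BasT) (h3 : S_NbhT) (h4 : S_CloT) (h5 : S_Cvr)
    (h6 : S_DbfT) : S_TorT := by
  intro p hp hp2 K _ _ W hW L _ _ w Q ϖ R hLF n hn
  have h20 : (2 : K) = 0 := torT_two p hp2 K
  have hcL : CharP L p := charP_of_injective_algebraMap (algebraMap K L).injective p
  obtain ⟨b20, bnf, -⟩ := h2.1 K h20 W hW L
  obtain ⟨p1, p2, -, p4, -⟩ := h1 L b20 (W⁄L).toAffine bnf
  obtain ⟨M₀, hM₀, hnb⟩ := h3 p hp2 K W hW L w
  have hp1 : 1 < p := hp.out.one_lt
  -- (a)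
  have ha : ∀ (j : ℕ) (P : (W⁄L).toAffine.Point) (x y : L), XY P x y → M₀ < w x →
      ∃ x' y' : L, XY (p ^ j • P) x' y' ∧ 2 ^ j * w x ≤ w x' := by
    intro j
    induction j with
    | zero =>
      intro P x y hP hx
      refine ⟨x, y, ?_, by rw [pow_zero, one_mul]⟩
      rw [pow_zero, one_nsmul]
      exact hP
    | succ j ih =>
      intro P x y hP hx
      have e1 : p ^ (j + 1) • P = p • (p ^ j • P) := by
        rw [pow_succ, mul_comm, mul_nsmul, ← mul_nsmul, mul_nsmul']
      obtain ⟨x', y', hxy, hle⟩ := ih P x y hP hx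
      have hx' : M₀ < w x' := by
        have : (1 : ℝ) ≤ 2 ^ j := one_le_pow₀ one_le_two
        nlinarith [w.nonneg x]
      obtain ⟨x'', y'', hxy', hle'⟩ := hnb _ _ _ hxy hx'
      refine ⟨x'', y'', by rw [e1]; exact hxy', ?_⟩
      rw [pow_succ]
      nlinarith
  -- the bound for `y`
  obtain ⟨M, hM₀M, hMy⟩ : ∃ M : ℝ, M₀ ≤ M ∧ ∀ (P : (W⁄L).toAffine.Point) (x y : L), XY P x y →
      w x ≤ M₀ → w y ≤ M := by
    set B : ℝ := M₀ ^ 3 + w (W⁄L).toAffine.a₂ * M₀ ^ 2 + w (W⁄L).toAffine.a₆ with hB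
    have hB0 : 0 ≤ B := by
      have := w.nonneg (W⁄L).toAffine.a₂
      have := w.nonneg (W⁄L).toAffine.a₆
      positivity
    refine ⟨M₀ + B + 1, by linarith, fun P x y hP hx => ?_⟩
    obtain ⟨-, -, -, heq⟩ := p2 P x y hP
    have h6 : w y ^ 2 ≤ B + M₀ * w y := by
      have h8 : y ^ 2 = x ^ 3 + (W⁄L).toAffine.a₂ * x ^ 2 + (W⁄L).toAffine.a₆ - x * y := by
        rw [← heq]
        ring
      rw [← map_pow, h8, sub_eq_add_neg]
      refine (w.add_le _ _).trans (add_le_add ?_ ?_)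
      · rw [hB]
        refine (w.add_le _ _).trans (add_le_add
          ((w.add_le _ _).trans (add_le_add ?_ ?_)) le_rfl)
        · rw [map_pow]
          exact pow_le_pow_left₀ (w.nonneg _) hx _
        · rw [map_mul, map_pow]
          exact mul_le_mul_of_nonneg_left (pow_le_pow_left₀ (w.nonneg _) hx _) (w.nonneg _)
      · rw [AbsoluteValue.map_neg, map_mul]
        exact mul_le_mul_of_nonneg_right hx (w.nonneg _)
    by_contra hc
    push Not at hc
    nlinarith
  obtain ⟨δ, hδ, hclo⟩ := h4 p hp2 L (W⁄L).toAffine bnf w M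
  obtain ⟨N, cl, hcl⟩ := h5 p L w Q ϖ R hLF M δ hδ
  -- the prime-to-`p` part
  have hodd : ∀ m : ℕ, 1 ≤ m → ¬ p ∣ m → {P : (W⁄L).toAffine.Point | m • P = 0}.Finite := by
    intro m hm hpm
    have hcop : Nat.Coprime p m := (hp.out.coprime_iff_not_dvd).2 hpm
    have htot : 0 < Nat.totient m := Nat.totient_pos.2 hm
    have hfix : ∀ P : (W⁄L).toAffine.Point, m • P = 0 → p ^ Nat.totient m • P = P := by
      intro P hP
      have h7 : p ^ Nat.totient m ≡ 1 [MOD addOrderOf P] :=
        (Nat.ModEq.pow_totient hcop).of_dvd (addOrderOf_dvd_iff_nsmul_eq_zero.2 hP)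
      have h8 := nsmul_eq_nsmul_iff_modEq.2 h7
      rw [h8, one_nsmul]
    have hbd : ∀ (P : (W⁄L).toAffine.Point) (x y : L), m • P = 0 → XY P x y → w x ≤ M₀ := by
      intro P x y hP hxy
      by_contra hc
      push Not at hc
      obtain ⟨x', y', hxy', hle⟩ := ha (Nat.totient m) P x y hxy hc
      rw [hfix P hP] at hxy'
      have e1 : x' = x := by
        rw [← (p2 _ _ _ hxy').2.1, (p2 _ _ _ hxy).2.1]
      rw [e1] at hle
      have h7 : (2 : ℝ) ≤ 2 ^ Nat.totient m := by
        calc (2 : ℝ) = 2 ^ 1 := (pow_one _).symm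
          _ ≤ 2 ^ Nat.totient m := pow_le_pow_right₀ one_le_two htot
      nlinarith
    have hinj : Set.InjOn (fun P : (W⁄L).toAffine.Point => (cl (px P), cl (py P)))
        ({P | m • P = 0} \ {0}) := by
      rintro P ⟨hP, hP0⟩ P' ⟨hP', hP'0⟩ he
      simp only [Prod.mk.injEq] at he
      obtain ⟨x, y, hxy⟩ := (p1 P).resolve_left hP0
      obtain ⟨x', y', hxy'⟩ := (p1 P').resolve_left hP'0
      have hx := hbd P x y hP hxy
      have hx' := hbd P' x' y' hP' hxy'
      have hy := hMy P x y hxy hx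
      have hy' := hMy P' x' y' hxy' hx'
      have hX := hx.trans hM₀M
      have hX' := hx'.trans hM₀M
      rw [(p2 _ _ _ hxy).2.1, (p2 _ _ _ hxy').2.1, (p2 _ _ _ hxy).2.2.1,
        (p2 _ _ _ hxy').2.2.1] at he
      rcases hclo P P' x y x' y' hxy hxy' hX hy hX' hy' (hcl _ _ hX hX' he.1)
        (hcl _ _ hy hy' he.2) with h | ⟨x'', y'', hxy'', hMx⟩
      · exact sub_eq_zero.1 h
      · exfalso
        have hT : m • (P - P') = 0 := by
          have e1 : m • P = 0 := hP
          have e2 : m • P' = 0 := hP'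
          rw [nsmul_sub, e1, e2, sub_zero]
        have h7 := hbd _ _ _ hT hxy''
        linarith
    have hfin : ({P : (W⁄L).toAffine.Point | m • P = 0} \ {0}).Finite :=
      Set.Finite.of_finite_image (Set.toFinite _) hinj
    refine (hfin.union (Set.finite_singleton (0 : (W⁄L).toAffine.Point))).subset ?_
    intro P hP
    by_cases hP0 : P = 0
    · exact Or.inr hP0
    · exact Or.inl ⟨hP, hP0⟩
  -- the general case
  have hgen : ∀ (m : ℕ), 1 ≤ m → ¬ p ∣ m → ∀ a : ℕ,
      {P : (W⁄L).toAffine.Point | (p ^ a * m) • P = 0}.Finite := by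
    intro m hm hpm a
    induction a with
    | zero => simpa using hodd m hm hpm
    | succ a ih =>
      refine (Set.Finite.biUnion ih fun R _ => h6 p hp2 K W hW L R).subset ?_
      intro P hP
      have hP' : (p ^ (a + 1) * m) • P = 0 := hP
      refine Set.mem_biUnion (x := p • P) ?_ rfl
      show (p ^ a * m) • (p • P) = 0
      rw [← mul_nsmul', ← hP']
      congr 1
      ring
  obtain ⟨a, m, hpm, rfl⟩ := Nat.exists_eq_pow_mul_and_not_dvd (by omega : n ≠ 0) p hp.out.ne_one
  refine hgen m ?_ hpm a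
  rcases Nat.eq_zero_or_pos m with h | h
  · subst h; omega
  · exact h

end Pool.Agent.MP72P
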